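import Pool.Agent.Lib.helper10.Occ3

namespace Pool.Agent.Results.MP_7af251_lc.CoNPHard

open Pool.Agent.Cx Pool.Agent.Cx.Oc

/-- `M` is a weakly stable matching; `a m w`, `b w m` are ranks, `0` meaning not on the list and
smaller positive ranks being better -/
def Stable {α β : Type} (a : α → β → ℕ) (b : β → α → ℕ) (M : α → β → Prop) : Prop :=
  (∀ m w, M m w → a m w ≠ 0 ∧ b w m ≠ 0) ∧ (∀ m w w', M m w → M m w' → w = w') ∧
  (∀ m m' w, M m w → M m' w → m = m') ∧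
  ¬ ∃ m w, a m w ≠ 0 ∧ b w m ≠ 0 ∧ ¬ M m w ∧ (∀ w', M m w' → a m w < a m w') ∧
    ∀ m', M m' w → b w m < b w m'

/-- every man is at least as well off in `M` as in any weakly stable matching -/
def ManOpt {α β : Type} (a : α → β → ℕ) (b : β → α → ℕ) (M : α → β → Prop) : Prop :=
  Stable a b M ∧ ∀ M', Stable a b M' → ∀ m w', M' m w' → ∃ w, M m w ∧ a m w ≤ a m w'

/-- the entry `(i, j)` of a matrix of ranks -/
def rk (A : List (List ℕ)) (i j : ℕ) : ℕ := (A.getD i []).getD j 0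

/-- the instance with rank matrices `A` (men) and `B` (women) has a man-optimal weakly stable matching -/
def HasOpt (z : List (List ℕ) × List (List ℕ)) : Prop :=
  (∀ r ∈ z.1, r.length = z.2.length) ∧ (∀ r ∈ z.2, r.length = z.1.length) ∧
  ∃ M, ManOpt (fun (m : Fin z.1.length) (w : Fin z.2.length) => rk z.1 m w) (fun w m => rk z.2 w m) M

section
variable {α β γ δ : Type} {a : γ → δ → ℕ} {b : δ → γ → ℕ} {f : α → γ} {g : β → δ}
  (hf : f.Injective) (hg : g.Injective) (hr : ∀ x y, a x y ≠ 0 → (∃ m, f m = x) ∧ ∃ w, g w = y)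
include hf hg hr

lemma pull {M : γ → δ → Prop} (h : Stable a b M) :
    Stable (fun m w => a (f m) (g w)) (fun w m => b (g w) (f m)) fun m w => M (f m) (g w) := by
  obtain ⟨h1, h2, h3, h4⟩ := h
  refine ⟨fun m w => h1 _ _, fun m w w' p q => hg (h2 _ _ _ p q), fun m m' w p q => hf (h3 _ _ _ p q),
    fun ⟨m, w, p, q, r, s, t⟩ => h4 ⟨_, _, p, q, r, fun y e => ?_, fun x e => ?_⟩⟩
  · obtain ⟨w', rfl⟩ := (hr _ _ (h1 _ _ e).1).2; exact s _ e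
  · obtain ⟨m', rfl⟩ := (hr _ _ (h1 _ _ e).1).1; exact t _ e

lemma push {M : α → β → Prop} (h : Stable (fun m w => a (f m) (g w)) (fun w m => b (g w) (f m)) M) :
    Stable a b fun x y => ∃ m w, f m = x ∧ g w = y ∧ M m w := by
  obtain ⟨h1, h2, h3, h4⟩ := h
  refine ⟨?_, ?_, ?_, fun ⟨x, y, p, q, r, s, t⟩ => ?_⟩
  · rintro _ _ ⟨m, w, rfl, rfl, e⟩; exact h1 _ _ e
  · rintro _ _ _ ⟨m, w, rfl, rfl, e⟩ ⟨m', w', c, rfl, e'⟩
    obtain rfl := hf c; rw [h2 _ _ _ e e']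
  · rintro _ _ _ ⟨m, w, rfl, rfl, e⟩ ⟨m', w', rfl, c, e'⟩
    obtain rfl := hg c; rw [h3 _ _ _ e e']
  · obtain ⟨⟨m, rfl⟩, w, rfl⟩ := hr _ _ p
    exact h4 ⟨m, w, p, q, fun e => r ⟨_, _, rfl, rfl, e⟩, fun w' e => s _ ⟨_, _, rfl, rfl, e⟩,
      fun m' e => t _ ⟨_, _, rfl, rfl, e⟩⟩

end

abbrev Ag := ℕ × ℕ

def ed (φ : F) (x y : Ag) (r : ℕ) : Prop :=
  (x.1 = 0 ∧ x.2 = 0 ∧ y.1 = 0 ∧ y.2 = 0 ∧ r = 1) ∨
  (x.1 = 1 ∧ x.2 = 0 ∧ y.2 = 0 ∧ ((y.1 = 0 ∧ r = 1) ∨ (y.1 = 1 ∧ r = 2))) ∨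
  (x.1 = 2 ∧ x.2 < φ.length ∧ ((y.1 = 1 ∧ y.2 = x.2 ∧ r = 1) ∨ (y.1 = 2 ∧ y.2 / 3 = x.2 ∧ r = 2) ∨
    (y.1 = 0 ∧ y.2 = 0 ∧ r = 3))) ∨
  (x.1 = 3 ∧ x.2 < 3 * φ.length ∧ (y.1 = 2 ∨ y.1 = 3) ∧ y.2 = x.2 ∧ r = 1) ∨
  (x.1 = 4 ∧ x.2 < 3 * φ.length ∧ ((y.1 = 3 ∧ y.2 = x.2 ∧ r = 1) ∨
    (y.1 = 2 ∧ y.2 / 3 < x.2 / 3 ∧ cf φ x.2 y.2 ∧ r = 2) ∨ (y.1 = 1 ∧ y.2 = x.2 / 3 + 1 ∧ r = 3) ∨
    (y.1 = 0 ∧ y.2 = 0 ∧ r = 4)))
instance (φ : F) (x y : Ag) (r : ℕ) : Decidable (ed φ x y r) := by unfold ed; infer_instance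
def rm (φ : F) (x y : Ag) : ℕ :=
  if ed φ x y 1 then 1 else if ed φ x y 2 then 2 else if ed φ x y 3 then 3 else if ed φ x y 4 then 4 else 0
def rw (y x : Ag) : ℕ :=
  if y.1 = 0 then (if x.1 < 2 then 2 else 1) else if y.1 = 1 then (if x.1 = 2 then 2 else 1) else
  if y.1 = 2 then (if x.1 = 3 then 1 else if x.1 = 4 then 2 else 3) else 1
def ags (φ : F) : List Ag := List.range 5 ×ˢ List.range (3 * φ.length + 1)
def red (φ : F) : List (List ℕ) × List (List ℕ) :=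
  ((ags φ).map fun x => (ags φ).map fun y => rm φ x y, (ags φ).map fun y => (ags φ).map fun x => rw y x)

lemma red_pt : PT red := by
  have b1 : PT ags := by unfold ags; fun_prop
  have b2 : ∀ r, PP fun z : (F × Ag) × Ag => ed z.1.1 z.1.2 z.2 r := fun r => by unfold ed; fun_prop
  refine PT.pair (PT.map (PT.map ?_ (by fun_prop)) b1) (PT.map (PT.map ?_ (by fun_prop)) b1)
  · exact (b2 1).ite (by fun_prop) ((b2 2).ite (by fun_prop) ((b2 3).ite (by fun_prop)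
      ((b2 4).ite (by fun_prop) (by fun_prop))))
  · unfold rw
    repeat first | refine PP.ite (by fun_prop) ?_ ?_ | fun_prop

variable {φ : F}

lemma rm1 {x y : Ag} {r : ℕ} (h : ed φ x y r) : rm φ x y = r ∧ r ≠ 0 := by
  have q : ∀ s, ed φ x y s → s = r := fun s g => by unfold ed at *; omega
  have := q 1; have := q 2; have := q 3; have := q 4
  have : r = 1 ∨ r = 2 ∨ r = 3 ∨ r = 4 := by unfold ed at h; omega
  unfold rm; grind

lemma rm2 {x y : Ag} (h : rm φ x y ≠ 0) : ed φ x y (rm φ x y) := by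
  unfold rm at *; split_ifs at * <;> first | assumption | exact absurd rfl h

lemma rw0 (y x : Ag) : rw y x ≠ 0 := by unfold rw; split_ifs <;> simp

lemma mk {M : Ag → Ag → Prop} (h1 : ∀ m w, M m w → ∃ r, ed φ m w r) (h2 : ∀ m w w', M m w → M m w' → w = w')
    (h3 : ∀ m m' w, M m w → M m' w → m = m') (h4 : ∀ m w r, ed φ m w r →
      (∃ w' s, M m w' ∧ ed φ m w' s ∧ s ≤ r) ∨ ∃ m', M m' w ∧ rw w m' ≤ rw w m) : Stable (rm φ) rw M := by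
  refine ⟨fun m w e => ⟨?_, rw0 _ _⟩, h2, h3, fun ⟨m, w, p, _, _, s, t⟩ => ?_⟩
  · obtain ⟨r, e⟩ := h1 m w e
    rw [(rm1 e).1]; exact (rm1 e).2
  · rcases h4 _ _ _ (rm2 p) with ⟨w', r, e, c, d⟩ | ⟨m', e, d⟩
    · have := s _ e; have := rm1 c; omega
    · have := t _ e; omega

def M0 (φ : F) (x y : Ag) : Prop := (x.1 = 1 ∧ x.2 = 0 ∧ y.1 = 0 ∧ y.2 = 0) ∨
  (x.1 = 2 ∧ x.2 < φ.length ∧ y.1 = 1 ∧ y.2 = x.2) ∨
  (3 ≤ x.1 ∧ x.1 ≤ 4 ∧ x.2 < 3 * φ.length ∧ y.1 + 1 = x.1 ∧ y.2 = x.2)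

lemma top {m w : Ag} {r : ℕ} (h : ed φ m w r) (e : m.1 ≠ 0) : ∃ w', M0 φ m w' ∧ ed φ m w' 1 := by
  refine ⟨(m.1 - 1, m.2), ?_⟩
  rcases h with h | h | h | h | h
  · exact absurd h.1 e
  all_goals simp [M0, ed, h.1, h.2.1]

lemma st0 : Stable (rm φ) rw (M0 φ) := by
  refine mk (fun m w e => ⟨1, ?_⟩) (fun m w w' p q => Prod.ext ?_ ?_)
    (fun m m' w p q => Prod.ext ?_ ?_) fun m w r e => ?_
  · obtain ⟨m, i⟩ := m
    obtain ⟨w, j⟩ := w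
    simp only [M0] at e
    rcases e with ⟨rfl, rfl, rfl, rfl⟩ | ⟨rfl, l, rfl, rfl⟩ | ⟨a, b, l, rfl, rfl⟩
    · simp [ed]
    · simp [ed, l]
    · obtain rfl | rfl : w = 2 ∨ w = 3 := by omega
      all_goals simp [ed, l]
  iterate 4 unfold M0 at *; omega
  by_cases c : m.1 = 0
  · refine Or.inr ⟨(1, 0), ?_⟩
    have : w.1 = 0 ∧ w.2 = 0 := by unfold ed at e; omega
    simp [M0, rw, *]
  · obtain ⟨w', p, q⟩ := top e c
    exact Or.inl ⟨w', 1, p, q, Nat.pos_of_ne_zero (rm1 e).2⟩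

lemma st1 (h : Sat3 φ) : ∃ M, Stable (rm φ) rw M ∧ M (0, 0) (0, 0) := by
  obtain ⟨o, o1, o2⟩ := of_sat h
  obtain ⟨M, hM⟩ : ∃ M : Ag → Ag → Prop, ∀ x y, M x y ↔ (x.1 ≤ 1 ∧ x.2 = 0 ∧ y.1 = x.1 ∧ y.2 = 0) ∨
    (x.1 = 2 ∧ x.2 < φ.length ∧ y.1 = 2 ∧ y.2 = o x.2) ∨
    (3 ≤ x.1 ∧ x.1 ≤ 4 ∧ x.2 < 3 * φ.length ∧ x.2 ≠ o (x.2 / 3) ∧ y.1 + 1 = x.1 ∧ y.2 = x.2) ∨
    (x.1 = 3 ∧ x.2 < 3 * φ.length ∧ x.2 = o (x.2 / 3) ∧ y.1 = 3 ∧ y.2 = x.2) ∨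
    (x.1 = 4 ∧ x.2 < 3 * φ.length ∧ x.2 = o (x.2 / 3) ∧ y.1 = 1 ∧ y.2 = x.2 / 3 + 1) := ⟨_, fun _ _ => .rfl⟩
  refine ⟨M, mk (fun m w e => ?_) (fun m w w' p q => Prod.ext ?_ ?_) (fun m m' w p q => ?_)
    fun m w r e => ?_, by simp [hM]⟩
  · obtain ⟨m, i⟩ := m
    obtain ⟨w, j⟩ := w
    simp only [hM] at e
    rcases e with ⟨a, rfl, rfl, rfl⟩ | ⟨rfl, l, rfl, rfl⟩ | ⟨a, b, l, -, rfl, rfl⟩ | ⟨rfl, l, -, rfl, rfl⟩ |
      ⟨rfl, l, -, rfl, rfl⟩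
    · interval_cases w <;> simp [ed]
    · simp [ed, l, o1]
    · obtain rfl | rfl : w = 2 ∨ w = 3 := by omega
      all_goals simp [ed, l]
    · simp [ed, l]
    · simp [ed, l]
  · rw [hM] at p q; omega
  · rw [hM] at p q; omega
  · have := o1 m.2
    have := o1 m'.2
    have := @congrArg _ _ (m.2 / 3) (m'.2 / 3) o
    have := @congrArg _ _ (m.2 / 3) m'.2 o
    have := @congrArg _ _ (m'.2 / 3) m.2 o
    rw [hM] at p q
    simp only [Prod.ext_iff]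
    omega
  · obtain ⟨m, i⟩ := m
    obtain ⟨w, j⟩ := w
    have r0 := Nat.pos_of_ne_zero (rm1 e).2
    simp only [ed] at e
    rcases e with ⟨rfl, rfl, rfl, rfl, -⟩ | ⟨rfl, rfl, rfl, ⟨rfl, -⟩ | ⟨rfl, -⟩⟩ |
      ⟨rfl, l, ⟨rfl, rfl, -⟩ | e⟩ | ⟨rfl, l, -⟩ | ⟨rfl, l, e⟩
    · exact Or.inr ⟨(0, 0), by simp [hM], le_rfl⟩
    · exact Or.inr ⟨(0, 0), by simp [hM], by simp [rw]⟩
    · exact Or.inr ⟨(1, 0), by simp [hM], le_rfl⟩
    · cases j with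
      | zero => exact Or.inr ⟨(1, 0), by simp [hM], by simp [rw]⟩
      | succ j => exact Or.inr ⟨(4, o j), by have := o1 j; simp [hM, this]; omega, by simp [rw]⟩
    · exact Or.inl ⟨(2, o i), 2, by simp [hM, l], by simp [ed, l, o1], by omega⟩
    · by_cases c : i = o (i / 3)
      · exact Or.inl ⟨(3, i), 1, by rw [hM]; dsimp only; omega, by simp [ed, l], r0⟩
      · exact Or.inl ⟨(2, i), 1, by rw [hM]; dsimp only; omega, by simp [ed, l], r0⟩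
    by_cases c : i = o (i / 3)
    · rcases e with ⟨rfl, rfl, -⟩ | ⟨rfl, p, q, -⟩ | e
      · exact Or.inr ⟨(3, j), by rw [hM]; dsimp only; omega, by simp [rw]⟩
      · have := q.2.1
        have : j ≠ o (j / 3) := fun d => o2 (i / 3) (j / 3) (by rwa [← c, ← d])
        exact Or.inr ⟨(3, j), by rw [hM]; dsimp only; omega, by simp [rw]⟩
      · exact Or.inl ⟨(1, i / 3 + 1), 3, by rw [hM]; dsimp only; omega, by simp [ed, l], by omega⟩
    · exact Or.inl ⟨(3, i), 1, by rw [hM]; dsimp only; omega, by simp [ed, l], r0⟩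

lemma bw {M : Ag → Ag → Prop} (h : Stable (rm φ) rw M) (h0 : M (0, 0) (0, 0)) : Sat3 φ := by
  obtain ⟨h1, h2, h3, h4⟩ := h
  have ac : ∀ m w, M m w → ∃ r, ed φ m w r := fun m w e => ⟨_, rm2 (h1 m w e).1⟩
  have nb : ∀ m w r, ed φ m w r → (∃ w' s, M m w' ∧ ed φ m w' s ∧ s ≤ r) ∨
      ∃ m', M m' w ∧ rw w m' ≤ rw w m := fun m w r e => by
    by_contra! c
    have := rm1 e
    exact h4 ⟨m, w, by omega, rw0 _ _, fun q => (c.2 _ q).false, fun w' q => by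
      have := c.1 w' _ q (rm2 (h1 _ _ q).1); omega, c.2⟩
  have n0 : ∀ m r, 2 ≤ m.1 → ed φ m (0, 0) r → ∃ w, M m w ∧ w.1 ≠ 0 := fun m r l e => by
    rcases nb _ _ _ e with ⟨w, s, p, q, -⟩ | ⟨m', p, q⟩
    · refine ⟨w, p, fun c => ?_⟩
      obtain rfl : w = (0, 0) := Prod.ext c (by unfold ed at q; omega)
      obtain rfl := h3 _ _ _ p h0
      simp at l
    · obtain rfl := h3 _ _ _ p h0
      simp [rw, Nat.not_lt.2 l] at q
  have us : ∀ o < 3 * φ.length, ∀ m, M m (2, o) → m.1 ≠ 3 →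
      M (4, o) (1, o / 3 + 1) ∨ ∃ p, p / 3 < o / 3 ∧ M (4, o) (2, p) := fun o l m p c => by
    have a : M (3, o) (3, o) := by
      rcases nb (3, o) (2, o) 1 (by simp [ed, l]) with ⟨⟨w, j⟩, s, q, e, -⟩ | ⟨m', q, e⟩
      · simp [ed] at e
        obtain ⟨-, rfl | rfl, rfl, -⟩ := e
        · obtain rfl := h3 _ _ _ p q; simp at c
        · exact q
      · obtain rfl := h3 _ _ _ p q
        simp [rw, c] at e; split_ifs at e <;> omega
    obtain ⟨⟨w, j⟩, q, e⟩ := n0 (4, o) 4 (by simp) (by simp [ed, l])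
    obtain ⟨r, d⟩ := ac _ _ q
    simp [ed] at d e
    obtain ⟨-, ⟨rfl, rfl, -⟩ | ⟨rfl, d, -⟩ | ⟨rfl, rfl, -⟩ | d⟩ := d
    · simpa using h3 _ _ _ a q
    · exact Or.inr ⟨j, d, q⟩
    · exact Or.inl q
    · omega
  have ch : ∀ c < φ.length, ∀ m, M m (1, c) → m.1 ≠ 2 → ∃ o, o / 3 = c ∧ M (2, c) (2, o) := fun c l m p e => by
    obtain ⟨⟨w, j⟩, q, d⟩ := n0 (2, c) 3 (by simp) (by simp [ed, l])
    obtain ⟨r, g⟩ := ac _ _ q
    simp [ed] at d g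
    obtain ⟨-, ⟨rfl, rfl, -⟩ | ⟨rfl, g, -⟩ | g⟩ := g
    · obtain rfl := h3 _ _ _ p q; simp at e
    · exact ⟨j, g, q⟩
    · omega
  have ind : ∀ c ≤ φ.length, (∃ m, M m (1, c) ∧ m.1 ≠ 2) ∧ ∀ p i, p / 3 < c → ¬ M (4, i) (2, p) :=
    fun c => by
      induction c with
      | zero =>
        refine fun _ => ⟨⟨(1, 0), ?_, by simp⟩, by simp⟩
        rcases nb (1, 0) (1, 0) 2 (by simp [ed]) with ⟨⟨w, j⟩, s, q, e, -⟩ | ⟨⟨m, j⟩, q, e⟩
        · simp [ed] at e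
          obtain ⟨rfl, ⟨rfl, -⟩ | ⟨rfl, -⟩⟩ := e
          · simpa using h3 _ _ _ q h0
          · exact q
        · obtain ⟨r, d⟩ := ac _ _ q
          simp [ed, rw] at d e
          obtain ⟨rfl, rfl⟩ : m = 1 ∧ j = 0 := by split_ifs at e <;> omega
          exact q
      | succ c ih =>
        intro l
        obtain ⟨⟨m, p, e⟩, nj⟩ := ih (by omega)
        obtain ⟨o, rfl, q⟩ := ch c l m p e
        have a := (us o (by omega) _ q (by simp)).resolve_right fun ⟨p, x, y⟩ => nj p o x y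
        refine ⟨⟨_, a, by simp⟩, fun p i x y => ?_⟩
        have x' : p / 3 = o / 3 := by by_contra d; exact nj p i (by omega) y
        have b := (us p (by omega) _ y (by simp)).resolve_right fun ⟨r, s, t⟩ => nj r p (by omega) t
        rw [x'] at b
        obtain rfl : o = p := by simpa using h3 _ _ _ a b
        simpa using h3 _ _ _ q y
  have : ∀ c < φ.length, ∃ o, o / 3 = c ∧ M (2, c) (2, o) ∧ M (4, o) (1, o / 3 + 1) := fun c l => by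
    obtain ⟨⟨m, p, e⟩, nj⟩ := ind c l.le
    obtain ⟨o, rfl, q⟩ := ch c l m p e
    exact ⟨o, rfl, q, (us o (by omega) _ q (by simp)).resolve_right fun ⟨p, x, y⟩ => nj p o x y⟩
  choose! o o1 o2 o3 using this
  have k : ∀ c < φ.length, ∀ d < c, ¬ cf φ (o c) (o d) := fun c l d l' e => by
    rcases nb (4, o c) (2, o d) 2 (by simp [ed, e, e.1, o1 c l, o1 d (l'.trans l), l'])
      with ⟨w, s, q, g, g'⟩ | ⟨m, q, g⟩
    · obtain rfl := h2 _ _ _ q (o3 c l)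
      simp [ed] at g; omega
    · obtain rfl := h3 _ _ _ q (o2 d (l'.trans l))
      simp [rw] at g
  refine sat_of o1 fun c l d l' e => ?_
  rcases lt_trichotomy c d with x | rfl | x
  exacts [k d l' c x e.symm, cf_irrefl _ e, k c l d x e]

theorem result : CoNPHard (Lang HasOpt) := by
  refine (hard_sat3.red red_pt fun φ => ?_).coNPHard
  have nd : (ags φ).Nodup := List.nodup_range.product List.nodup_range
  have l1 : ∀ m : Fin (red φ).1.length, m.1 < (ags φ).length := fun m => by simpa [red] using m.2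
  have l2 : ∀ m : Fin (red φ).2.length, m.1 < (ags φ).length := fun m => by simpa [red] using m.2
  obtain ⟨f, hf⟩ : ∃ f : Fin (red φ).1.length → Ag, ∀ m, f m = (ags φ)[m.1]'(l1 m) := ⟨_, fun _ => rfl⟩
  obtain ⟨g, hg⟩ : ∃ f : Fin (red φ).2.length → Ag, ∀ m, f m = (ags φ)[m.1]'(l2 m) := ⟨_, fun _ => rfl⟩
  have f1 : f.Injective := fun a b e => Fin.ext (nd.getElem_inj_iff.1 (by rwa [← hf, ← hf]))
  have g1 : g.Injective := fun a b e => Fin.ext (nd.getElem_inj_iff.1 (by rwa [← hg, ← hg]))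
  have hr : ∀ x y, rm φ x y ≠ 0 → (∃ m, f m = x) ∧ ∃ w, g w = y := by
    rintro ⟨x, i⟩ ⟨y, j⟩ e
    have e := rm2 e
    have : cf φ i j → j < 3 * φ.length := fun h => h.2.1
    obtain ⟨a, a1, a2⟩ := List.getElem_of_mem (show (x, i) ∈ ags φ by simp [ags, ed] at e ⊢; omega)
    obtain ⟨b, b1, b2⟩ := List.getElem_of_mem (show (y, j) ∈ ags φ by simp [ags, ed] at e ⊢; omega)
    exact ⟨⟨⟨a, by simpa [red] using a1⟩, (hf _).trans a2⟩, ⟨b, by simpa [red] using b1⟩, (hg _).trans b2⟩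
  have e1 : (fun (m : Fin (red φ).1.length) (w : Fin (red φ).2.length) => rk (red φ).1 m w) =
      fun m w => rm φ (f m) (g w) := by ext m w; simp [rk, red, hf, hg, l1 m, l2 w]
  have e2 : (fun (w : Fin (red φ).2.length) (m : Fin (red φ).1.length) => rk (red φ).2 w m) =
      fun w m => rw (g w) (f m) := by ext w m; simp [rk, red, hf, hg, l1 m, l2 w]
  have s0 := pull f1 g1 hr (st0 (φ := φ))
  obtain ⟨⟨m0, p0⟩, w0, q0⟩ := hr (0, 0) (0, 0) (by rw [(rm1 (r := 1) (by simp [ed])).1]; simp)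
  obtain ⟨⟨m1, p1⟩, -⟩ := hr (1, 0) (0, 0) (by rw [(rm1 (r := 1) (by simp [ed])).1]; simp)
  rw [HasOpt, e1, e2]
  constructor
  · rintro h ⟨-, -, M, s, o⟩
    obtain ⟨M1, s1, r1⟩ := st1 h
    obtain ⟨w, a, -⟩ := o _ (pull f1 g1 hr s1) m0 w0 (by rwa [p0, q0])
    obtain ⟨w', b, c⟩ := o _ s0 m1 w0 (by simp [p1, q0, M0])
    have a' := rm2 (s.1 _ _ a).1
    have b' := rm2 (s.1 _ _ b).1
    simp only [p0, p1, q0, (rm1 (φ := φ) (x := (1, 0)) (y := (0, 0)) (r := 1) (by simp [ed])).1] at a' b' c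
    obtain rfl : w = w' := g1 (by simp only [ed, Prod.ext_iff] at *; omega)
    simpa [p0, p1] using congrArg f (s.2.2.1 _ _ _ a b)
  · intro h
    by_contra c
    refine h ⟨fun r e => ?_, fun r e => ?_, _, s0, fun M s m w e => ?_⟩
    iterate 2 obtain ⟨x, -, rfl⟩ := List.mem_map.1 e; simp [red]
    have a := rm2 (s.1 _ _ e).1
    by_cases d : (f m).1 = 0
    · refine (c (bw (push f1 g1 hr s) ⟨m, w, ?_, ?_, e⟩)).elim <;>
      simp only [ed, Prod.ext_iff] at * <;> omega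
    · obtain ⟨y, p, q⟩ := top a d
      obtain ⟨w', rfl⟩ := (hr _ y (by rw [(rm1 q).1]; simp)).2
      exact ⟨w', p, by have := rm1 q; have := rm1 a; simp only; omega⟩

end Pool.Agent.Results.MP_7af251_lc.CoNPHard
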